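import Pool.Agent.Helper68_BAN.Stmt2

/-! Squad BAN, module MAINA. -/

set_option autoImplicit false

namespace Pool.Agent.BAN.H81

open MeasureTheory Filter Topology Set
open scoped NNReal

section gauge

variable {V : Type} [NormedAddCommGroup V] [NormedSpace ℝ V] {φ : V → ℝ}

lemma gau_zero (h : Gau φ) : φ 0 = 0 := by
  have := h.hom 0 0 le_rfl
  simpa using this

lemma gau_nonneg (h : Gau φ) (x : V) : 0 ≤ φ x := by
  by_cases hx : x = 0
  · rw [hx, gau_zero h]
  · exact (h.pos x hx).le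

lemma gau_cont (h : Gau φ) {C : ℝ} (hC : ∀ v, φ v ≤ C * ‖v‖) : Continuous φ := by
  have key : ∀ x y, φ x - φ y ≤ C * ‖x - y‖ := by
    intro x y
    have h1 := h.sub (x - y) y
    rw [sub_add_cancel] at h1
    have h2 := hC (x - y)
    linarith
  by_cases hV : ∃ v : V, v ≠ 0
  · obtain ⟨v, hv⟩ := hV
    have hC0 : 0 ≤ C := by
      have h1 := (h.pos v hv).trans_le (hC v)
      have h2 : 0 < ‖v‖ := norm_pos_iff.mpr hv
      exact (pos_of_mul_pos_left h1 h2.le).le
    refine (LipschitzWith.of_dist_le_mul (K := ⟨C, hC0⟩) fun x y => ?_).continuous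
    rw [Real.dist_eq, dist_eq_norm, abs_le]
    have h1 := key x y
    have h2 := key y x
    rw [norm_sub_rev] at h2
    constructor
    · show -(C * ‖x - y‖) ≤ _
      linarith
    · exact h1
  · push Not at hV
    have : φ = fun _ => φ 0 := by
      funext x
      rw [hV x]
    rw [this]
    exact continuous_const

/-- convex combinations -/
lemma gau_conv (h : Gau φ) (s t : ℝ) (hs : 0 ≤ s) (ht : 0 ≤ t) (x y : V) :
    φ (s • x + t • y) ≤ s * φ x + t * φ y := by
  have := h.sub (s • x) (t • y)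
  rwa [h.hom s x hs, h.hom t y ht] at this

end gauge

section compare

variable {X : Type} [NormedAddCommGroup X] [NormedSpace ℝ X] {g Ψ : X → ℝ} {b : X} {β : ℝ}

lemma cmp_lo (hg : Gau g) (hΨ : Gau Ψ) (hb : g b ≤ β) (hc : ∀ y, (Ψ y ≤ 1 ↔ g (b + y) ≤ 1))
    {y : X} (hy : Ψ y ≤ 1) : g (b + y) ≤ Ψ y + (1 - Ψ y) * β := by
  by_cases h0 : y = 0
  · rw [h0, gau_zero hΨ, add_zero]
    linarith
  · have hp := hΨ.pos y h0
    set τ := Ψ y with hτ
    have h1 : Ψ (τ⁻¹ • y) = 1 := by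
      rw [hΨ.hom _ _ (by positivity), ← hτ]
      field_simp
    have h2 := (hc _).1 h1.le
    have e : b + y = τ • (b + τ⁻¹ • y) + (1 - τ) • b := by
      rw [smul_add, smul_smul, mul_inv_cancel₀ hp.ne', one_smul, sub_smul, one_smul]
      abel
    rw [e]
    have h3 := gau_conv hg τ (1 - τ) hp.le (by linarith) (b + τ⁻¹ • y) b
    have h4 := mul_le_mul_of_nonneg_left h2 hp.le
    have h5 := mul_le_mul_of_nonneg_left hb (by linarith : 0 ≤ 1 - τ)
    linarith

lemma cmp_one (hg : Gau g) (hΨ : Gau Ψ) (hc : ∀ y, (Ψ y ≤ 1 ↔ g (b + y) ≤ 1))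
    {y : X} (hy : Ψ y = 1) : 1 ≤ g (b + y) := by
  by_contra hcon
  push Not at hcon
  set G := g (b + y) with hG
  set M := g (-b) with hM
  have hM0 : 0 ≤ M := gau_nonneg hg _
  have hG0 : 0 ≤ G := gau_nonneg hg _
  set ε := (1 - G) / (G + M + 1) with hε
  have hε0 : 0 < ε := div_pos (by linarith) (by positivity)
  have h1 : Ψ ((1 + ε) • y) = 1 + ε := by
    rw [hΨ.hom _ _ (by linarith), hy, mul_one]
  have h2 : 1 < g (b + (1 + ε) • y) := by
    by_contra h3
    push Not at h3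
    have := (hc _).2 h3
    linarith
  have e : b + (1 + ε) • y = (1 + ε) • (b + y) + ε • (-b) := by
    rw [smul_add, smul_neg, add_smul 1 ε b, one_smul]
    abel
  rw [e] at h2
  have h3 := gau_conv hg (1 + ε) ε (by linarith) hε0.le (b + y) (-b)
  have h4 : ε * (G + M) ≤ 1 - G := by
    have : ε * (G + M + 1) = 1 - G := by
      rw [hε]
      field_simp
    nlinarith
  nlinarith

lemma cmp_hi (hg : Gau g) (hΨ : Gau Ψ) (hb : g b ≤ β) (hc : ∀ y, (Ψ y ≤ 1 ↔ g (b + y) ≤ 1))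
    {y : X} (hy : 1 ≤ Ψ y) : Ψ y + (1 - Ψ y) * β ≤ g (b + y) := by
  set τ := Ψ y with hτ
  have hp : 0 < τ := by linarith
  have h1 : Ψ (τ⁻¹ • y) = 1 := by
    rw [hΨ.hom _ _ (by positivity), ← hτ]
    field_simp
  have h2 := cmp_one hg hΨ hc h1
  have hi : 0 ≤ 1 - τ⁻¹ := by
    have : τ⁻¹ ≤ 1 := inv_le_one_of_one_le₀ hy
    linarith
  have e : b + τ⁻¹ • y = τ⁻¹ • (b + y) + (1 - τ⁻¹) • b := by
    rw [smul_add, sub_smul, one_smul]
    abel
  rw [e] at h2
  have h3 := gau_conv hg τ⁻¹ (1 - τ⁻¹) (by positivity) hi (b + y) b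
  have h4 := mul_le_mul_of_nonneg_left hb hi
  have h5 : 1 ≤ τ⁻¹ * g (b + y) + (1 - τ⁻¹) * β := by linarith
  have h6 := mul_le_mul_of_nonneg_left h5 hp.le
  have h7 : τ * (τ⁻¹ * g (b + y) + (1 - τ⁻¹) * β) = g (b + y) + (τ - 1) * β := by
    field_simp
  rw [h7] at h6
  linarith

end compare

section round

variable {V : Type} [NormedAddCommGroup V] [InnerProductSpace ℝ V] {φ : V → ℝ}

/-- a transitive symmetry group -/
lemma round (hφ : Gau φ) (hc : Continuous φ)
    (iso : ∀ g : V →L[ℝ] V, (∀ v, φ (g v) = φ v) → ∀ v, ‖g v‖ = ‖v‖) {v : V}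
    (hv : ∀ u : V, ∃ t : ℝ, ∃ κ ∈ SymR φ, u = t • κ v) {a d : V}
    (hi : LinearIndependent ℝ ![a, d]) (u : V) :
    φ u - φ (-u) = 0 ∧ φ u * φ (-u) = φ v * φ (-v) / ‖v‖ ^ 2 * ‖u‖ ^ 2 := by
  rw [LinearIndependent.pair_iff] at hi
  have ha : a ≠ 0 := by
    intro h0
    have := hi 1 0 (by simp [h0])
    exact one_ne_zero this.1
  have hv0 : v ≠ 0 := by
    intro h0
    obtain ⟨t, κ, _, h1⟩ := hv a
    rw [h0, map_zero, smul_zero] at h1
    exact ha h1
  have hvn : 0 < ‖v‖ := norm_pos_iff.mpr hv0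
  -- the two values
  have key : ∀ u : V, ∃ t : ℝ, ‖u‖ = |t| * ‖v‖ ∧
      ((φ u = |t| * φ v ∧ φ (-u) = |t| * φ (-v)) ∨ (φ u = |t| * φ (-v) ∧ φ (-u) = |t| * φ v)) := by
    intro u
    obtain ⟨t, κ, hκ, h1⟩ := hv u
    have hn : ‖κ v‖ = ‖v‖ := iso κ hκ v
    refine ⟨t, by rw [h1, norm_smul, hn, Real.norm_eq_abs], ?_⟩
    rcases le_total 0 t with ht | ht
    · left
      rw [abs_of_nonneg ht, h1]
      constructor
      · rw [hφ.hom t _ ht, hκ v]
      · rw [← smul_neg, hφ.hom t _ ht, ← map_neg, hκ (-v)]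
    · right
      rw [abs_of_nonpos ht, h1]
      have e : t • κ v = (-t) • κ (-v) := by rw [map_neg, smul_neg, neg_smul, neg_neg]
      have e' : -(t • κ v) = (-t) • κ v := by rw [neg_smul]
      constructor
      · rw [e, hφ.hom _ _ (by linarith), hκ (-v)]
      · rw [e', hφ.hom _ _ (by linarith), hκ v]
  -- an independent vector
  obtain ⟨w, hw⟩ : ∃ w : V, ∀ p q : ℝ, p • v + q • w = 0 → p = 0 ∧ q = 0 := by
    by_contra hcon
    push Not at hcon
    have mult : ∀ w : V, ∃ r : ℝ, w = r • v := by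
      intro w
      obtain ⟨p, q, h1, h2⟩ := hcon w
      have hq : q ≠ 0 := by
        intro hq
        rw [hq, zero_smul, add_zero] at h1
        rcases smul_eq_zero.mp h1 with h3 | h3
        · exact h2 h3 hq
        · exact hv0 h3
      refine ⟨-(q⁻¹ * p), ?_⟩
      have h3 : q • w = -(p • v) := by
        rw [eq_neg_iff_add_eq_zero, add_comm]
        exact h1
      have h4 : w = q⁻¹ • (q • w) := by rw [smul_smul, inv_mul_cancel₀ hq, one_smul]
      rw [h4, h3, smul_neg, smul_smul, neg_smul]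
    obtain ⟨r, hr⟩ := mult a
    obtain ⟨r', hr'⟩ := mult d
    have h1 := hi r' (-r) (by rw [hr, hr', smul_smul, smul_smul, ← add_smul]; ring_nf; simp)
    have hr0 : r ≠ 0 := by
      intro h0
      rw [h0, zero_smul] at hr
      exact ha hr
    exact hr0 (neg_eq_zero.mp h1.2)
  have hdiff : φ v = φ (-v) := by
    by_contra hne
    set γ : ℝ → V := fun t => Real.cos t • v + Real.sin t • w with hγ
    have hγ0 : ∀ t, γ t ≠ 0 := by
      intro t h0
      obtain ⟨h1, h2⟩ := hw _ _ h0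
      have := Real.sin_sq_add_cos_sq t
      rw [h1, h2] at this
      norm_num at this
    have hγc : Continuous γ := by
      rw [hγ]
      fun_prop
    set F : ℝ → ℝ := fun t => φ (γ t) - φ (-γ t) with hF
    have hFc : Continuous F := by
      rw [hF]
      exact (hc.comp hγc).sub (hc.comp hγc.neg)
    have hF0 : F 0 = φ v - φ (-v) := by
      simp [hF, hγ]
    have hFpi : F Real.pi = φ (-v) - φ v := by
      simp [hF, hγ]
    obtain ⟨t0, ht0⟩ : ∃ t0, F t0 = 0 := by
      rcases le_total (F 0) 0 with h1 | h1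
      · have h2 : (0 : ℝ) ∈ Set.Icc (F 0) (F Real.pi) := ⟨h1, by rw [hFpi]; linarith⟩
        obtain ⟨t, _, h3⟩ := intermediate_value_Icc Real.pi_pos.le hFc.continuousOn h2
        exact ⟨t, h3⟩
      · have h2 : (0 : ℝ) ∈ Set.Icc (F Real.pi) (F 0) := ⟨by rw [hFpi]; linarith, h1⟩
        obtain ⟨t, _, h3⟩ := intermediate_value_Icc' Real.pi_pos.le hFc.continuousOn h2
        exact ⟨t, h3⟩
    obtain ⟨t, h1, h2⟩ := key (γ t0)
    have ht : |t| ≠ 0 := by
      intro h3
      rw [h3, zero_mul] at h1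
      exact hγ0 t0 (norm_eq_zero.mp h1)
    have h3 : φ (γ t0) - φ (-γ t0) = 0 := ht0
    rcases h2 with ⟨h4, h5⟩ | ⟨h4, h5⟩
    · rw [h4, h5, ← mul_sub] at h3
      rcases mul_eq_zero.mp h3 with h6 | h6
      · exact ht h6
      · exact hne (by linarith)
    · rw [h4, h5, ← mul_sub] at h3
      rcases mul_eq_zero.mp h3 with h6 | h6
      · exact ht h6
      · exact hne (by linarith)
  obtain ⟨t, h1, h2⟩ := key u
  rw [h1]
  rcases h2 with ⟨h4, h5⟩ | ⟨h4, h5⟩
  · rw [h4, h5, ← hdiff]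
    refine ⟨by ring, ?_⟩
    field_simp
  · rw [h4, h5, ← hdiff]
    refine ⟨by ring, ?_⟩
    field_simp

end round

/-- MAINA -/
theorem maina (hana : ANA2Stmt) (hsec : SEC2Stmt) (hmapa : MAPAStmt) (hmapb : MAPBStmt)
    (hmapc : MAPCStmt) (hcap : CAP2Stmt) (hbas : BAS2Stmt) : MAINAStmt := by
  intro k hk g φ Φ b L β hD hg hβ hbL hb a d hi
  obtain ⟨hgrp, c, C, hc, hC, hφb, hΦb, hAb, _⟩ := hbas _ _ φ Φ hD
  by_cases H : ∃ v : EuclideanSpace ℝ (Fin k), ∀ u, ∃ t : ℝ, ∃ κ ∈ SymR φ, u = t • κ v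
  · obtain ⟨v, hv⟩ := H
    have hr := round hD.gv (gau_cont hD.gv fun v => (hφb v).2) hD.iso hv hi
    refine ⟨0, Polynomial.C (φ v * φ (-v) / ‖v‖ ^ 2) * (Polynomial.C (‖a‖ ^ 2)
      + Polynomial.C (2 * inner ℝ a d) * Polynomial.X + Polynomial.C (‖d‖ ^ 2) * Polynomial.X ^ 2),
      fun t => ⟨?_, ?_⟩⟩
    · rw [(hr (a + t • d)).1]
      simp
    · rw [(hr (a + t • d)).2]
      simp only [Polynomial.eval_mul, Polynomial.eval_C, Polynomial.eval_add, Polynomial.eval_X,
        Polynomial.eval_pow]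
      rw [norm_add_sq_real, norm_smul, inner_smul_right, mul_pow, Real.norm_eq_abs, sq_abs]
      ring
  push Not at H
  have hlin := LinearIndependent.pair_iff.mp hi
  obtain ⟨e, hen⟩ : ∃ e : EuclideanSpace ℝ (Fin (k + 1)), ‖e‖ = 1 :=
    ⟨EuclideanSpace.single 0 1, by simp⟩
  obtain ⟨a1, a2, ⟨lw, a3⟩, a4⟩ := hmapa _ e hen
  obtain ⟨b1, b2, ln, b3⟩ := hmapb _ e hen
  obtain ⟨⟨lQ, c1⟩, c2, c3, c4, c5, c6, c7⟩ := hmapc _ e hen
  obtain ⟨s, Ls, hLs, s1, s2⟩ := hsec _ _ φ Φ hD _ (DD e) 2 ln (nu e) b1 (fun y hy => hy.1) b2 b3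
  have hsC : ∀ y ∈ DD e, ‖s y‖ ≤ C := fun y hy => (hAb _ _ (b2 y hy) (s1 y hy)).2
  have hlips : ∀ u : EuclideanSpace ℝ (Fin k), ∃ l : ℝ≥0,
      LipschitzWith l fun x => ww e x • s (YY e x) u := by
    intro u
    apply a4 _ (fun y => s y u) (C * ‖u‖) (Ls * ‖u‖)
    · intro y hy
      exact (ContinuousLinearMap.le_opNorm _ _).trans
        (mul_le_mul_of_nonneg_right (hsC y hy) (norm_nonneg _))
    · intro y hy z hz
      have h1 := (s y - s z).le_opNorm u
      rw [sub_apply] at h1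
      refine h1.trans ?_
      have h2 := mul_le_mul_of_nonneg_right (s2 y hy z hz) (norm_nonneg u)
      linarith
  obtain ⟨lA, hlA⟩ := hlips a
  obtain ⟨lB, hlB⟩ := hlips d
  obtain ⟨lC, hlC⟩ := a4 _ (fun y => b (nu e y)) (‖b e‖ + |L| * 2) (|L| * ln)
    (by
      intro y hy
      have h1 := hbL (nu e y) e (b2 y hy) hen
      have h2 : ‖nu e y - e‖ ≤ 2 := by
        refine (norm_sub_le _ _).trans ?_
        rw [b2 y hy, hen]
        norm_num
      have h3 : ‖b (nu e y)‖ ≤ ‖b e‖ + ‖b (nu e y) - b e‖ := by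
        have := norm_add_le (b e) (b (nu e y) - b e)
        rwa [add_sub_cancel] at this
      have h4 : L * ‖nu e y - e‖ ≤ |L| * 2 :=
        mul_le_mul (le_abs_self L) h2 (norm_nonneg _) (abs_nonneg _)
      linarith)
    (by
      intro y hy z hz
      have h1 := hbL (nu e y) (nu e z) (b2 y hy) (b2 z hz)
      refine h1.trans ?_
      calc L * ‖nu e y - nu e z‖ ≤ |L| * ‖nu e y - nu e z‖ :=
            mul_le_mul_of_nonneg_right (le_abs_self L) (norm_nonneg _)
        _ ≤ |L| * (ln * ‖y - z‖) := mul_le_mul_of_nonneg_left (b3 y hy z hz) (abs_nonneg _)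
        _ = |L| * ln * ‖y - z‖ := by ring)
  have w0 : ww e 0 = 0 := by
    unfold ww xp x0
    simp
  set LL : ℝ≥0 := max (max lA lB) (max lC lQ) with hLL
  have qA : lA ≤ LL := (le_max_left _ _).trans (le_max_left _ _)
  have qB : lB ≤ LL := (le_max_right _ _).trans (le_max_left _ _)
  have qC : lC ≤ LL := (le_max_left _ _).trans (le_max_right _ _)
  have qQ : lQ ≤ LL := (le_max_right _ _).trans (le_max_right _ _)
  -- the combination
  have comb : ∀ (x : EuclideanSpace ℝ (Fin (k + 1))) (p q : ℝ), p • (ww e x • s (YY e x) a) + q • (ww e x • s (YY e x) d)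
      + ww e x • b (nu e (YY e x)) =
      ww e x • (b (nu e (YY e x)) + s (YY e x) (p • a + q • d)) := by
    intro x p q
    rw [map_add, map_smul, map_smul, smul_add, smul_add, smul_comm p, smul_comm q]
    abel
  have hΦ : ∀ (x : EuclideanSpace ℝ (Fin (k + 1))) (u : EuclideanSpace ℝ (Fin k)),
      Φ (nu e (YY e x)) (s (YY e x) u) = φ u := fun x u => (s1 _ (a1 x)).1 u
  have hin : ∀ (x y : EuclideanSpace ℝ (Fin (k + 1))), inner ℝ (nu e (YY e x)) y = 0 →
      inner ℝ (QQ e x) (ww e x • y) = 0 := by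
    intro x y hy
    rcases (a2 x).eq_or_lt with h0 | h0
    · rw [← h0, zero_smul, inner_zero_right]
    · obtain ⟨m, hm⟩ := c4 x h0
      rw [hm, inner_smul_right, inner_smul_left, hy]
      simp
  obtain ⟨P, R, hPR⟩ := hana k g (fun p q => φ (p • a + q • d))
    (fun x => ww e x • s (YY e x) a) (fun x => ww e x • s (YY e x) d)
    (fun x => ww e x • b (nu e (YY e x))) (QQ e) (ww e) LL (1 / 5) β (SS e) (by norm_num) hβ hg
    (by
      intro p q hpq
      apply hD.gv.pos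
      intro h0
      obtain ⟨h1, h2⟩ := hlin p q h0
      rcases hpq with h3 | h3
      · exact h3 h1
      · exact h3 h2)
    (by
      intro t p q ht
      rw [← hD.gv.hom t _ ht, smul_add, smul_smul, smul_smul])
    (by
      intro p q p' q'
      have : (p + p') • a + (q + q') • d = (p • a + q • d) + (p' • a + q' • d) := by
        rw [add_smul, add_smul]
        abel
      rw [this]
      exact hD.gv.sub _ _)
    (hlA.weaken qA) (hlB.weaken qB) (hlC.weaken qC) (c1.weaken qQ)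
    (by simp only [w0, zero_smul]) (by simp only [w0, zero_smul]) (by simp only [w0, zero_smul]) c2
    (fun x => hin x _ ((s1 _ (a1 x)).2 a)) (fun x => hin x _ ((s1 _ (a1 x)).2 d))
    (fun x => hin x _ (hb _ (b2 _ (a1 x))).1) c3 a3.continuous a2 c6.measurableSet
    (by
      intro x hx
      have h1 := c5 x hx
      have := norm_nonneg x
      linarith)
    (by
      intro x p q hpq
      rw [comb, hg.hom _ _ (a2 x)]
      obtain ⟨k1, k2, k3⟩ := hb _ (b2 _ (a1 x))
      rw [← hΦ x (p • a + q • d)] at hpq ⊢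
      exact mul_le_mul_of_nonneg_left (cmp_lo hg (hD.gx _ (b2 _ (a1 x))) k2 k3 hpq) (a2 x))
    (by
      intro x p q hpq
      rw [comb, hg.hom _ _ (a2 x)]
      obtain ⟨k1, k2, k3⟩ := hb _ (b2 _ (a1 x))
      rw [← hΦ x (p • a + q • d)] at hpq ⊢
      exact mul_le_mul_of_nonneg_left (cmp_hi hg (hD.gx _ (b2 _ (a1 x))) k2 k3 hpq) (a2 x))
    (by
      intro ε p q hε hpq
      set v : EuclideanSpace ℝ (Fin k) := p • a + q • d with hv
      have hv0 : v ≠ 0 := by
        intro h0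
        rw [h0, gau_zero hD.gv] at hpq
        exact zero_ne_one hpq
      have hne : ‖-e‖ = 1 := by rw [norm_neg, hen]
      have hb0 : inner ℝ e (b (-e)) = 0 := by
        have := (hb (-e) hne).1
        rwa [inner_neg_left, neg_eq_zero] at this
      obtain ⟨A0, hA0⟩ := hD.non (-e) hne
      have hnull := hcap _ _ volume φ Φ hD e (b (-e)) v hen hb0 hv0 (H v)
      refine measure_mono_null ?_ hnull
      rintro _ ⟨x, hx, rfl⟩
      simp only
      rw [comb, ← hv]
      obtain ⟨k1, k2⟩ := c7 x hx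
      rcases k2 with k2 | k2
      · refine ⟨ε * x0 e x, 0, le_rfl, A0, hA0, ?_⟩
        rw [k2, k1, zero_smul, zero_smul, smul_smul]
      · refine ⟨ε * x0 e x, ww e x, a2 x, s (YY e x), ?_, ?_⟩
        · rw [← k2]
          exact s1 _ (a1 x)
        · rw [k1, k2, smul_smul, add_comm (b (-e))])
  refine ⟨P, R, fun t => ?_⟩
  have := hPR t
  have e1 : (1 : ℝ) • a + t • d = a + t • d := by rw [one_smul]
  have e2 : (-1 : ℝ) • a + (-t) • d = -(a + t • d) := by
    rw [neg_smul, neg_smul, one_smul, neg_add]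
  rw [e1, e2] at this
  exact this

end Pool.Agent.BAN.H81
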